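import Pool.Agent.Helper47.FC.Table
import Pool.Agent.Helper36.CK.Val

/-!
# The fast check in the form of `Helper36.CK.fin`
-/

set_option autoImplicit false

namespace Pool.Agent.Helper47.FC

open Pool.Agent.Helper83.Cert Pool.Agent.Helper36.CK

/-- **The conclusion**, nine variables. -/
theorem fin9 {y : ℕ → ℝ} {a b : Ex} {n : ℕ} {x z : ℝ} {gs : List Ex} (h : R y a (n + 1) x)
    (k : R y b (n + 1) z) (hy : ∀ k, 0 ≤ y k) (H : G y gs) (M k1 s1 k2 s2 : ℕ)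
    (c : chkA V9 P9 1069 gs (.sub b a) M k1 s1 k2 s2 = true) : x ≤ z := by
  have h1 := chkA_sound vars9 (by decide) c hy H
  rw [exsub, show exVal y a = ((n + 1 : ℕ) : ℝ) * x from h,
    show exVal y b = ((n + 1 : ℕ) : ℝ) * z from k] at h1
  have h4 : (0 : ℝ) < ((n + 1 : ℕ) : ℝ) := by positivity
  rw [← mul_sub] at h1
  have := (mul_nonneg_iff_of_pos_left h4).1 h1
  linarith

/-- a certificate of `0 ≤ p` on the set given by `gs` (as `Helper20.TS.Ck`) -/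
structure CkF (gs : List Ex) (p : Ex) : Prop where
  h : ∃ M k1 s1 k2 s2 : ℕ, chkA V9 P9 1069 gs p M k1 s1 k2 s2 = true

theorem CkF.mk' {gs : List Ex} {p : Ex} (M k1 s1 k2 s2 : ℕ)
    (h : chkA V9 P9 1069 gs p M k1 s1 k2 s2 = true) : CkF gs p := ⟨M, k1, s1, k2, s2, h⟩

theorem CkF.nn {gs : List Ex} {p : Ex} (k : CkF gs p) {y : ℕ → ℝ} (hy : ∀ k, 0 ≤ y k)
    (hg : ∀ g ∈ gs, 0 ≤ exVal y g) : 0 ≤ exVal y p := by
  obtain ⟨M, k1, s1, k2, s2, h⟩ := k.h
  exact chkA_sound vars9 (by decide) h hy hg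

end Pool.Agent.Helper47.FC
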