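import Pool.Agent.Helper47.FC.Formal

/-!
# A fast kernel check of certificates

`chk V P m b gs p M k1 s1 k2 s2 = true` says: `(M + 1) p` minus a sum of products of nonnegative
constants, constraints and squares of linear forms has nonnegative coefficients. Everything is done
with packed numbers: the variable with the code `k` is `2 ^ ((b + 1) * vw V k)`; arithmetic modulo
`2 ^ ((b + 1) * m)`. `s1`: the stream of the products (114 bits: the constant, three indices); `s2`: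
the stream of the squares (182 bits: the constant, an index, ten coefficients). The indices refer to
the list `1, gs, variables`.
-/

set_option autoImplicit false

namespace Pool.Agent.Helper47.FC

open Pool.Agent.Helper83.Cert

/-- the weight of a variable -/
noncomputable def vw (V k : ℕ) : ℕ := Nat.land (Nat.shiftRight V (Nat.mul 10 k)) 1023

noncomputable def bmax (a b : ℕ) : ℕ := Bool.rec (motive := fun _ => ℕ) a b (Nat.ble a b)

/-- the packed value of an expression -/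
noncomputable def eE (V b Z mask : ℕ) (e : Ex) : ℕ :=
  Ex.rec (motive := fun _ => ℕ)
    (fun a => Int.rec (motive := fun _ => ℕ) (fun n => n) (fun n => Nat.mul (Nat.succ n) mask) a)
    (fun k => Nat.pow 2 (Nat.mul (Nat.succ b) (vw V k)))
    (fun _ _ x y => Nat.add x y)
    (fun _ _ x y => Nat.sub (Nat.add x Z) (Nat.land y mask))
    (fun _ _ x y => Nat.land (Nat.mul x y) mask) e

/-- the norm -/
noncomputable def nE (e : Ex) : ℕ :=
  Ex.rec (motive := fun _ => ℕ)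
    (fun a => Int.rec (motive := fun _ => ℕ) (fun n => n) (fun n => Nat.succ n) a)
    (fun _ => 1) (fun _ _ x y => Nat.add x y) (fun _ _ x y => Nat.add x y)
    (fun _ _ x y => Nat.mul x y) e

/-- the degree -/
noncomputable def dE (V : ℕ) (e : Ex) : ℕ :=
  Ex.rec (motive := fun _ => ℕ) (fun _ => 0)
    (fun k => Bool.rec (motive := fun _ => ℕ) 1 99 (Nat.beq (vw V k) 0))
    (fun _ _ x y => bmax x y) (fun _ _ x y => bmax x y) (fun _ _ x y => Nat.add x y) e

noncomputable def nth (l : List ℕ) : ℕ → ℕ :=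
  List.rec (motive := fun _ => ℕ → ℕ) (fun _ => 0)
    (fun a _ ih n => Nat.rec (motive := fun _ => ℕ) a (fun m _ => ih m) n) l

noncomputable def mapL (f : Ex → ℕ) (l : List Ex) : List ℕ :=
  List.rec (motive := fun _ => List ℕ) [] (fun a _ r => f a :: r) l

/-- the sum over a stream -/
noncomputable def sm (F : ℕ) (t : ℕ → ℕ) (n : ℕ) : ℕ → ℕ :=
  Nat.rec (motive := fun _ => ℕ → ℕ) (fun _ => 0)
    (fun _ ih s => Nat.add (t s) (ih (Nat.shiftRight s F))) n

/-- the maximum over a stream -/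
noncomputable def mx (F : ℕ) (t : ℕ → ℕ) (n : ℕ) : ℕ → ℕ :=
  Nat.rec (motive := fun _ => ℕ → ℕ) (fun _ => 0)
    (fun _ ih s => bmax (t s) (ih (Nat.shiftRight s F))) n

noncomputable def t1 (mask : ℕ) (G : ℕ → ℕ) (s : ℕ) : ℕ :=
  Nat.land (Nat.mul (Nat.mul (Nat.land s 79228162514264337593543950335) (G (Nat.land (Nat.shiftRight s 96) 63)))
    (Nat.land (Nat.mul (G (Nat.land (Nat.shiftRight s 102) 63)) (G (Nat.land (Nat.shiftRight s 108) 63)))
      mask)) mask

noncomputable def n1 (G : ℕ → ℕ) (s : ℕ) : ℕ :=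
  Nat.mul (Nat.mul (Nat.land s 79228162514264337593543950335) (G (Nat.land (Nat.shiftRight s 96) 63)))
    (Nat.mul (G (Nat.land (Nat.shiftRight s 102) 63)) (G (Nat.land (Nat.shiftRight s 108) 63)))

noncomputable def d1 (G : ℕ → ℕ) (s : ℕ) : ℕ :=
  Nat.add (G (Nat.land (Nat.shiftRight s 96) 63))
    (Nat.add (G (Nat.land (Nat.shiftRight s 102) 63)) (G (Nat.land (Nat.shiftRight s 108) 63)))

/-- the linear form with the coefficients `digit - 128`, without the `-128` -/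
noncomputable def lin (P : List ℕ) : ℕ → ℕ :=
  List.rec (motive := fun _ => ℕ → ℕ) (fun _ => 0)
    (fun a _ ih s => Nat.add (Nat.mul (Nat.land s 255) a) (ih (Nat.shiftRight s 8))) P

noncomputable def sumL (P : List ℕ) : ℕ :=
  List.rec (motive := fun _ => ℕ) 0 (fun a _ r => Nat.add a r) P

noncomputable def t2 (mask off : ℕ) (P : List ℕ) (G : ℕ → ℕ) (s : ℕ) : ℕ :=
  (fun l => Nat.land (Nat.mul (Nat.mul (Nat.land s 79228162514264337593543950335)
    (G (Nat.land (Nat.shiftRight s 96) 63))) (Nat.land (Nat.mul l l) mask)) mask)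
    (Nat.add (lin P (Nat.shiftRight s 102)) off)

noncomputable def n2 (G : ℕ → ℕ) (s : ℕ) : ℕ :=
  Nat.mul (Nat.mul (Nat.land s 79228162514264337593543950335) (G (Nat.land (Nat.shiftRight s 96) 63))) 1638400

noncomputable def d2 (G : ℕ → ℕ) (s : ℕ) : ℕ := Nat.add (G (Nat.land (Nat.shiftRight s 96) 63)) 2

/-- the packed values of the variables -/
noncomputable def pws (V b : ℕ) (P : List ℕ) : List ℕ :=
  List.rec (motive := fun _ => List ℕ) []
    (fun k _ r => Nat.pow 2 (Nat.mul (Nat.succ b) (vw V k)) :: r) P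

/-- the list of the variables, appended to the list `l` -/
noncomputable def app (l r : List ℕ) : List ℕ :=
  List.rec (motive := fun _ => List ℕ) r (fun a _ ih => a :: ih) l

noncomputable def ones (P : List ℕ) : List ℕ :=
  List.rec (motive := fun _ => List ℕ) [] (fun _ _ r => 1 :: r) P

noncomputable def chkV (V : ℕ) (P : List ℕ) (b Z mask : ℕ) (gs : List Ex) (p : Ex)
    (M k1 s1 k2 s2 : ℕ) : Bool :=
  (fun G => Nat.beq (Nat.land (Nat.sub (Nat.add (Nat.mul (Nat.succ M) (eE V b Z mask p)) Z)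
    (Nat.land (Nat.add (sm 114 (t1 mask G) k1 s1)
      (sm 182 (t2 mask (Nat.land (Nat.mul (Nat.mul 128 mask) (sumL (pws V b (1 :: P)))) mask)
        (pws V b (1 :: P)) G) k2 s2)) mask))
    (Nat.div (Nat.mul (Nat.pow 2 b) mask) (Nat.sub (Nat.pow 2 (Nat.succ b)) 1))) 0)
  (nth (1 :: app (mapL (eE V b Z mask) gs) (pws V b P)))

noncomputable def chkN (P : List ℕ) (b : ℕ) (gs : List Ex) (p : Ex) (M k1 s1 k2 s2 : ℕ) : Bool :=
  (fun G => Nat.ble (Nat.succ (Nat.add (Nat.mul (Nat.succ M) (nE p))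
    (Nat.add (sm 114 (n1 G) k1 s1) (sm 182 (n2 G) k2 s2)))) (Nat.pow 2 b))
  (nth (1 :: app (mapL nE gs) (ones P)))

noncomputable def chkD (V : ℕ) (P : List ℕ) (gs : List Ex) (p : Ex) (k1 s1 k2 s2 : ℕ) : Bool :=
  (fun G => Nat.ble (bmax (dE V p) (bmax (mx 114 (d1 G) k1 s1) (mx 182 (d2 G) k2 s2))) 3)
  (nth (0 :: app (mapL (dE V) gs) (ones P)))

/-- **The check.** -/
noncomputable def chk (V : ℕ) (P : List ℕ) (m b : ℕ) (gs : List Ex) (p : Ex) (M k1 s1 k2 s2 : ℕ) :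
    Bool :=
  Bool.rec (motive := fun _ => Bool) false
    (Bool.rec (motive := fun _ => Bool) false
      (chkV V P b (Nat.pow 2 (Nat.mul (Nat.succ b) m))
        (Nat.sub (Nat.pow 2 (Nat.mul (Nat.succ b) m)) 1) gs p M k1 s1 k2 s2)
      (chkN P b gs p M k1 s1 k2 s2)) (chkD V P gs p k1 s1 k2 s2)

/-- the sum of the norms -/
noncomputable def tn (P : List ℕ) (gs : List Ex) (p : Ex) (M k1 s1 k2 s2 : ℕ) : ℕ :=
  (fun G => Nat.add (Nat.mul (Nat.succ M) (nE p))
    (Nat.add (sm 114 (n1 G) k1 s1) (sm 182 (n2 G) k2 s2)))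
  (nth (1 :: app (mapL nE gs) (ones P)))

/-- the check, the number of bits is computed (and forced) -/
noncomputable def chkA (V : ℕ) (P : List ℕ) (m : ℕ) (gs : List Ex) (p : Ex) (M k1 s1 k2 s2 : ℕ) :
    Bool :=
  Nat.rec (motive := fun _ => Bool) false (fun b _ => chk V P m b gs p M k1 s1 k2 s2)
    (Nat.succ (Nat.succ (Nat.log2 (tn P gs p M k1 s1 k2 s2))))

/-! ### Soundness -/

/-- the formal sum of an expression -/
def fE : Ex → F
  | Ex.c a => [(1, a)]
  | Ex.v k => [(k, 1)]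
  | Ex.add a b => fE a ++ fE b
  | Ex.sub a b => fE a ++ FC.m1 (1, -1) (fE b)
  | Ex.mul a b => fm (fE a) (fE b)

theorem evF_fE (y : ℕ → ℝ) (e : Ex) : evF y (fE e) = exVal y e := by
  induction e with
  | c a => simp [fE, evF, exVal, cm_one]
  | v k => simp [fE, evF, exVal, cm_evM]
  | add a b iha ihb => rw [fE, evF_append, iha, ihb, exVal]
  | sub a b iha ihb =>
    rw [fE, evF_append, evF_m1, iha, ihb, exVal]
    simp [cm_one]
    ring
  | mul a b iha ihb => rw [fE, evF_fm, iha, ihb, exVal]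

/-- the packed value `v`, the norm `n`, the degree `d` of the formal sum `f` -/
structure Q (x : ℕ → ℤ) (L : List ℕ) (Z : ℕ) (f : F) (v n d : ℕ) : Prop where
  n : nl f ≤ n
  h : d ≤ 3 → (v : ℤ) ≡ evF x f [ZMOD Z] ∧ ∀ a ∈ f, Sp L d a.1

section

variable {x : ℕ → ℤ} {L : List ℕ} {Z mask : ℕ} {f f' : F} {v v' n n' d d' : ℕ}

theorem bmax_eq (a b : ℕ) : bmax a b = max a b := by
  have e : bmax a b = Bool.rec (motive := fun _ => ℕ) a b (Nat.ble a b) := rfl
  rw [e]
  cases h : Nat.ble a b with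
  | true =>
    have : a ≤ b := Nat.le_of_ble_eq_true h
    rw [max_eq_right this]
  | false =>
    have : ¬ a ≤ b := fun hab => by
      rw [Nat.ble_eq_true_of_le hab] at h
      exact Bool.noConfusion h
    rw [max_eq_left (by omega)]

theorem Q.nil (d : ℕ) : Q x L Z [] 0 0 d :=
  ⟨le_refl _, fun _ => ⟨by simp [evF], by simp⟩⟩

theorem Q.add (h : Q x L Z f v n d) (h' : Q x L Z f' v' n' d') :
    Q x L Z (f ++ f') (Nat.add v v') (Nat.add n n') (bmax d d') := by
  refine ⟨?_, fun hd => ?_⟩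
  · rw [nl_append]
    exact Nat.add_le_add h.n h'.n
  · rw [bmax_eq] at hd ⊢
    obtain ⟨h1, h2⟩ := h.h ((le_max_left _ _).trans hd)
    obtain ⟨h1', h2'⟩ := h'.h ((le_max_right _ _).trans hd)
    refine ⟨?_, ?_⟩
    · have e : ((Nat.add v v' : ℕ) : ℤ) = (v : ℤ) + (v' : ℤ) := Nat.cast_add _ _
      rw [evF_append, e]
      exact h1.add h1'
    · intro a ha
      rcases List.mem_append.1 ha with ha | ha
      · exact (h2 a ha).mono (le_max_left _ _)
      · exact (h2' a ha).mono (le_max_right _ _)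

theorem Q.mul (h : Q x L Z f v n d) (h' : Q x L Z f' v' n' d') :
    Q x L Z (fm f f') (Nat.mul v v') (Nat.mul n n') (Nat.add d d') := by
  refine ⟨?_, fun hd => ?_⟩
  · rw [nl_fm]
    exact Nat.mul_le_mul h.n h'.n
  · have hd : d + d' ≤ 3 := hd
    obtain ⟨h1, h2⟩ := h.h (by omega)
    obtain ⟨h1', h2'⟩ := h'.h (by omega)
    refine ⟨?_, ?_⟩
    · have e : ((Nat.mul v v' : ℕ) : ℤ) = (v : ℤ) * (v' : ℤ) := Nat.cast_mul _ _
      rw [evF_fm, e]
      exact h1.mul h1'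
    · intro a ha
      obtain ⟨a1, h3, b1, h4, e⟩ := mem_fm ha
      rw [e]
      exact (h2 a1 h3).mul (h2' b1 h4)

/-- `Z` is a power of two, `mask = Z - 1` -/
structure Zk (Z mask : ℕ) : Prop where
  e : ∃ k, Z = 2 ^ k
  m : mask = Z - 1

theorem Zk.land (hz : Zk Z mask) (a : ℕ) : Nat.land a mask = a % Z := by
  obtain ⟨k, hk⟩ := hz.e
  rw [hz.m, hk]
  exact Nat.and_two_pow_sub_one_eq_mod a k

theorem Zk.pos (hz : Zk Z mask) : 0 < Z := by
  obtain ⟨k, hk⟩ := hz.e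
  rw [hk]
  positivity

theorem Zk.cong (hz : Zk Z mask) (a : ℕ) : ((Nat.land a mask : ℕ) : ℤ) ≡ (a : ℤ) [ZMOD Z] := by
  rw [hz.land, Int.natCast_mod]
  exact Int.mod_modEq _ _

theorem Q.land (hz : Zk Z mask) (h : Q x L Z f v n d) : Q x L Z f (Nat.land v mask) n d :=
  ⟨h.n, fun hd => ⟨(hz.cong v).trans (h.h hd).1, (h.h hd).2⟩⟩

theorem cast_mask (hz : Zk Z mask) : ((mask : ℕ) : ℤ) ≡ -1 [ZMOD Z] := by
  have h : ((mask : ℕ) : ℤ) = (Z : ℤ) - 1 := by
    rw [hz.m, Nat.cast_sub hz.pos]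
    simp
  rw [h]
  refine (Int.modEq_iff_dvd.2 ?_)
  exact ⟨-1, by ring⟩

theorem Q.sub (hz : Zk Z mask) (h : Q x L Z f v n d) (h' : Q x L Z f' v' n' d') :
    Q x L Z (f ++ FC.m1 (1, -1) f') (Nat.sub (Nat.add v Z) (Nat.land v' mask)) (Nat.add n n')
      (bmax d d') := by
  refine ⟨?_, fun hd => ?_⟩
  · rw [nl_append, nl_m1]
    simpa using Nat.add_le_add h.n h'.n
  · rw [bmax_eq] at hd ⊢
    obtain ⟨h1, h2⟩ := h.h ((le_max_left _ _).trans hd)
    obtain ⟨h1', h2'⟩ := h'.h ((le_max_right _ _).trans hd)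
    refine ⟨?_, ?_⟩
    · have hlt : Nat.land v' mask ≤ v + Z := by
        rw [hz.land]
        exact ((Nat.mod_lt _ hz.pos).le).trans (Nat.le_add_left _ _)
      have e : ((Nat.sub (Nat.add v Z) (Nat.land v' mask) : ℕ) : ℤ) =
          (v : ℤ) + (Z : ℤ) - ((Nat.land v' mask : ℕ) : ℤ) := by
        have : ((Nat.sub (Nat.add v Z) (Nat.land v' mask) : ℕ) : ℤ) =
          ((v + Z - Nat.land v' mask : ℕ) : ℤ) := rfl
        rw [this, Nat.cast_sub hlt, Nat.cast_add]
      rw [e, evF_append, evF_m1]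
      have h3 : (v : ℤ) + (Z : ℤ) ≡ evF x f [ZMOD Z] := by
        have : (v : ℤ) + (Z : ℤ) ≡ (v : ℤ) [ZMOD Z] := by
          rw [Int.modEq_iff_dvd]
          exact ⟨-1, by ring⟩
        exact this.trans h1
      have h4 := h3.sub ((hz.cong v').trans h1')
      simpa [cm_one, sub_eq_add_neg] using h4
    · intro a ha
      rcases List.mem_append.1 ha with ha | ha
      · exact (h2 a ha).mono (le_max_left _ _)
      · obtain ⟨b, hb, rfl⟩ := List.mem_map.1 ha
        simpa using (h2' b hb).mono (le_max_right _ _)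

theorem Q.int (hz : Zk Z mask) (a : ℤ) :
    Q x L Z [(1, a)] (Int.rec (motive := fun _ => ℕ) (fun n => n) (fun n => Nat.mul (Nat.succ n) mask) a)
      (Int.rec (motive := fun _ => ℕ) (fun n => n) (fun n => Nat.succ n) a) 0 := by
  rcases a with n | n
  · refine ⟨by simp [nl], fun _ => ⟨by simp [evF, cm_one], ?_⟩⟩
    intro a ha
    rw [List.mem_singleton.1 ha]
    exact Sp.one L
  · refine ⟨by simp [nl], fun _ => ⟨?_, ?_⟩⟩
    · have e : ((Nat.mul (Nat.succ n) mask : ℕ) : ℤ) = ((n + 1 : ℕ) : ℤ) * (mask : ℤ) :=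
        Nat.cast_mul _ _
      have h1 : ((n + 1 : ℕ) : ℤ) * (mask : ℤ) ≡ ((n + 1 : ℕ) : ℤ) * (-1) [ZMOD Z] :=
        (Int.ModEq.refl _).mul (cast_mask hz)
      change ((Nat.mul (Nat.succ n) mask : ℕ) : ℤ) ≡ _ [ZMOD Z]
      rw [e]
      refine h1.trans ?_
      simp only [evF, cm_one, mul_one, add_zero, Int.cast_id]
      rw [Int.negSucc_eq]
      push_cast
      ring_nf
      exact Int.ModEq.refl _
    · intro a ha
      rw [List.mem_singleton.1 ha]
      exact Sp.one L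

theorem Q.nat (a : ℕ) : Q x L Z [(1, (a : ℤ))] a a 0 := by
  refine ⟨by simp [nl], fun _ => ⟨by simp [evF, cm_one], ?_⟩⟩
  intro b hb
  rw [List.mem_singleton.1 hb]
  exact Sp.one L

end

/-! ### The variables -/

/-- the data of the variables -/
structure Vars (V : ℕ) (P : List ℕ) (m : ℕ) (dec : ℕ → ℕ) : Prop where
  tab : Tab P (vw V) m dec
  mem : ∀ k, vw V k ≠ 0 → k ∈ P

section

variable {V : ℕ} {P : List ℕ} {m b Z mask : ℕ} {dec : ℕ → ℕ}

/-- the values of the variables -/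
noncomputable def xv (V b : ℕ) (p : ℕ) : ℤ := ((2 ^ (b + 1) : ℕ) : ℤ) ^ vw V p

theorem pw_cast (V b k : ℕ) : ((Nat.pow 2 (Nat.mul (Nat.succ b) (vw V k)) : ℕ) : ℤ) = xv V b k := by
  unfold xv
  have : (Nat.pow 2 (Nat.mul (Nat.succ b) (vw V k)) : ℕ) = 2 ^ ((b + 1) * vw V k) := rfl
  rw [this]
  push_cast
  rw [pow_mul]

theorem Q.var (hV : Vars V P m dec) {k : ℕ} (hk : k ∈ P) :
    Q (xv V b) P Z [(k, 1)] (Nat.pow 2 (Nat.mul (Nat.succ b) (vw V k))) 1 1 := by
  refine ⟨by simp [nl], fun _ => ⟨?_, ?_⟩⟩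
  · rw [pw_cast, evF, evF, cm_prime _ (hV.tab.pr k hk)]
    simp
  · intro a ha
    rw [List.mem_singleton.1 ha]
    exact Sp.var hk

theorem Q.ex (hV : Vars V P m dec) (hz : Zk Z mask) (e : Ex) :
    Q (xv V b) P Z (fE e) (eE V b Z mask e) (nE e) (dE V e) := by
  induction e with
  | c a => exact Q.int hz a
  | v k =>
    have e1 : dE V (Ex.v k) = Bool.rec (motive := fun _ => ℕ) 1 99 (Nat.beq (vw V k) 0) := rfl
    rw [e1]
    cases h : Nat.beq (vw V k) 0 with
    | true => exact ⟨by simp [nl, fE, nE], fun h => absurd h (by norm_num)⟩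
    | false =>
      have hk : k ∈ P := hV.mem k fun h0 => by
        rw [h0] at h
        exact absurd h (by decide)
      exact Q.var hV hk
  | add a b iha ihb => exact iha.add ihb
  | sub a b iha ihb => exact iha.sub hz ihb
  | mul a b iha ihb => exact (iha.mul ihb).land hz

/-- a nonnegative element of the cone -/
def Pt (V b : ℕ) (P : List ℕ) (Z : ℕ) (y : ℕ → ℝ) (v n d : ℕ) : Prop :=
  ∃ f : F, Q (xv V b) P Z f v n d ∧ 0 ≤ evF y f

variable {y : ℕ → ℝ} {v v' n n' d d' : ℕ}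

theorem Pt.nil (d : ℕ) : Pt V b P Z y 0 0 d := ⟨[], Q.nil d, le_refl _⟩

theorem Pt.add (h : Pt V b P Z y v n d) (h' : Pt V b P Z y v' n' d') :
    Pt V b P Z y (Nat.add v v') (Nat.add n n') (bmax d d') := by
  obtain ⟨f, h1, h2⟩ := h
  obtain ⟨f', h1', h2'⟩ := h'
  exact ⟨f ++ f', h1.add h1', by rw [evF_append]; exact add_nonneg h2 h2'⟩

theorem Pt.mul (h : Pt V b P Z y v n d) (h' : Pt V b P Z y v' n' d') :
    Pt V b P Z y (Nat.mul v v') (Nat.mul n n') (Nat.add d d') := by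
  obtain ⟨f, h1, h2⟩ := h
  obtain ⟨f', h1', h2'⟩ := h'
  exact ⟨fm f f', h1.mul h1', by rw [evF_fm]; exact mul_nonneg h2 h2'⟩

theorem Pt.land (hz : Zk Z mask) (h : Pt V b P Z y v n d) : Pt V b P Z y (Nat.land v mask) n d := by
  obtain ⟨f, h1, h2⟩ := h
  exact ⟨f, h1.land hz, h2⟩

theorem Pt.nat (a : ℕ) : Pt V b P Z y a a 0 :=
  ⟨_, Q.nat a, by simp [evF, cm_one]⟩

theorem Pt.eqd (h : Pt V b P Z y v n d) (e : d = d') : Pt V b P Z y v n d' := e ▸ h

/-- the entries of the lists -/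
def Gs (V b : ℕ) (P : List ℕ) (Z : ℕ) (y : ℕ → ℝ) (Gv Gn Gd : ℕ → ℕ) : Prop :=
  ∀ i, Pt V b P Z y (Gv i) (Gn i) (Gd i)

theorem nth_nil (i : ℕ) : nth [] i = 0 := rfl

theorem nth_zero (a : ℕ) (l : List ℕ) : nth (a :: l) 0 = a := rfl

theorem nth_succ (a : ℕ) (l : List ℕ) (i : ℕ) : nth (a :: l) (i + 1) = nth l i := rfl

theorem Gs.nil : Gs V b P Z y (nth []) (nth []) (nth []) := fun _ => Pt.nil 0

theorem Gs.cons {lv ln ld : List ℕ} (h : Gs V b P Z y (nth lv) (nth ln) (nth ld))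
    (h0 : Pt V b P Z y v n d) : Gs V b P Z y (nth (v :: lv)) (nth (n :: ln)) (nth (d :: ld)) := by
  intro i
  rcases i with _ | i
  · exact h0
  · exact h i

theorem Gs.vars (hV : Vars V P m dec) (hy : ∀ k, 0 ≤ y k) (l : List ℕ) (hl : ∀ k ∈ l, k ∈ P) :
    Gs V b P Z y (nth (pws V b l)) (nth (ones l)) (nth (ones l)) := by
  induction l with
  | nil => exact Gs.nil
  | cons k l ih =>
    refine Gs.cons (ih fun j hj => hl j (by simp [hj])) ?_
    refine ⟨_, Q.var hV (hl k (by simp)), ?_⟩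
    simp only [evF, add_zero, Int.cast_one, one_mul, cm_evM]
    exact evM_nonneg hy k

theorem Gs.exs (hV : Vars V P m dec) (hz : Zk Z mask) {gs : List Ex} (hg : ∀ g ∈ gs, 0 ≤ exVal y g)
    {lv ln ld : List ℕ} (h : Gs V b P Z y (nth lv) (nth ln) (nth ld)) :
    Gs V b P Z y (nth (app (mapL (eE V b Z mask) gs) lv)) (nth (app (mapL nE gs) ln))
      (nth (app (mapL (dE V) gs) ld)) := by
  induction gs with
  | nil => exact h
  | cons g gs ih =>
    refine Gs.cons (ih fun j hj => hg j (by simp [hj])) ?_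
    exact ⟨_, Q.ex hV hz g, by rw [evF_fE]; exact hg g (by simp)⟩

section

variable {Gv Gn Gd : ℕ → ℕ}

theorem Pt.t1 (hz : Zk Z mask) (G : Gs V b P Z y Gv Gn Gd) (s : ℕ) :
    Pt V b P Z y (t1 mask Gv s) (n1 Gn s) (d1 Gd s) :=
  ((((Pt.nat _).mul (G _)).mul (((G _).mul (G _)).land hz)).land hz).eqd (by
    change 0 + _ + _ = _
    rw [zero_add]
    rfl)

theorem Pt.sm (F : ℕ) {tv tn td : ℕ → ℕ} (h : ∀ s, Pt V b P Z y (tv s) (tn s) (td s)) (k s : ℕ) :
    Pt V b P Z y (sm F tv k s) (sm F tn k s) (mx F td k s) := by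
  induction k generalizing s with
  | zero => exact Pt.nil 0
  | succ k ih => exact (h s).add (ih (Nat.shiftRight s F))

/-- the formal sum of a linear form -/
def fL : List ℕ → ℕ → F
  | [], _ => []
  | k :: l, s => (k, ((Nat.land s 255 : ℕ) : ℤ) - 128) :: fL l (Nat.shiftRight s 8)

theorem lin_cons (a : ℕ) (l : List ℕ) (s : ℕ) :
    lin (a :: l) s = Nat.land s 255 * a + lin l (Nat.shiftRight s 8) := rfl

theorem sumL_cons (a : ℕ) (l : List ℕ) : sumL (a :: l) = a + sumL l := rfl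

theorem pws_cons (k : ℕ) (l : List ℕ) :
    pws V b (k :: l) = Nat.pow 2 (Nat.mul (Nat.succ b) (vw V k)) :: pws V b l := rfl

theorem land_lt (s : ℕ) : Nat.land s 255 < 256 := by
  have : Nat.land s 255 = s % 2 ^ 8 := Nat.and_two_pow_sub_one_eq_mod s 8
  rw [this]
  exact Nat.mod_lt _ (by norm_num)

theorem fL_prop (hV : Vars V P m dec) (l : List ℕ) (hl : ∀ k ∈ l, k ∈ 1 :: P) (s : ℕ) :
    nl (fL l s) ≤ l.length * 128 ∧ (∀ a ∈ fL l s, Sp P 1 a.1) ∧
      evF (xv V b) (fL l s) = ((lin (pws V b l) s : ℕ) : ℤ) - 128 * ((sumL (pws V b l) : ℕ) : ℤ) := by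
  induction l generalizing s with
  | nil => exact ⟨le_refl _, by simp [fL], by simp [fL, evF, lin, sumL, pws]⟩
  | cons k l ih =>
    obtain ⟨h1, h2, h3⟩ := ih (fun j hj => hl j (by simp [hj])) (Nat.shiftRight s 8)
    have hlt := land_lt s
    have hcm : cm (xv V b) k = xv V b k := by
      rcases List.mem_cons.1 (hl k (by simp)) with rfl | hk
      · rw [cm_one, xv, hV.tab.z, pow_zero]
      · exact cm_prime _ (hV.tab.pr k hk)
    refine ⟨?_, ?_, ?_⟩
    · rw [fL, nl, List.length_cons]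
      have : (((Nat.land s 255 : ℕ) : ℤ) - 128).natAbs ≤ 128 := by omega
      omega
    · intro a ha
      rw [fL] at ha
      rcases List.mem_cons.1 ha with rfl | ha
      · rcases List.mem_cons.1 (hl k (by simp)) with rfl | hk
        · exact (Sp.one P).mono (by norm_num)
        · exact Sp.var hk
      · exact h2 a ha
    · rw [fL, evF, h3, hcm, pws_cons, lin_cons, sumL_cons]
      push_cast
      rw [pw_cast]
      ring

theorem Pt.t2 (hV : Vars V P m dec) (hP : P.length ≤ 9) (hz : Zk Z mask) (G : Gs V b P Z y Gv Gn Gd)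
    (s : ℕ) :
    Pt V b P Z y (FC.t2 mask (Nat.land (Nat.mul (Nat.mul 128 mask) (sumL (pws V b (1 :: P)))) mask)
      (pws V b (1 :: P)) Gv s) (n2 Gn s) (d2 Gd s) := by
  obtain ⟨h1, h2, h3⟩ := fL_prop (b := b) hV (1 :: P) (fun k hk => hk) (Nat.shiftRight s 102)
  set H := sumL (pws V b (1 :: P)) with hH
  set l := Nat.add (lin (pws V b (1 :: P)) (Nat.shiftRight s 102))
    (Nat.land (Nat.mul (Nat.mul 128 mask) H) mask) with hl
  have hq : Q (xv V b) P Z (fL (1 :: P) (Nat.shiftRight s 102)) l 1280 1 := by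
    refine ⟨h1.trans (by rw [List.length_cons]; omega), fun _ => ⟨?_, h2⟩⟩
    rw [h3]
    have e : ((l : ℕ) : ℤ) = ((lin (pws V b (1 :: P)) (Nat.shiftRight s 102) : ℕ) : ℤ) +
        ((Nat.land (Nat.mul (Nat.mul 128 mask) H) mask : ℕ) : ℤ) := Nat.cast_add _ _
    rw [e]
    have h4 := hz.cong (Nat.mul (Nat.mul 128 mask) H)
    have e2 : ((Nat.mul (Nat.mul 128 mask) H : ℕ) : ℤ) = 128 * (mask : ℤ) * (H : ℤ) := by
      have : (Nat.mul (Nat.mul 128 mask) H : ℕ) = 128 * mask * H := rfl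
      rw [this]
      push_cast
      rfl
    rw [e2] at h4
    have h5 : 128 * (mask : ℤ) * (H : ℤ) ≡ 128 * (-1) * (H : ℤ) [ZMOD Z] :=
      ((Int.ModEq.refl 128).mul (cast_mask hz)).mul (Int.ModEq.refl _)
    have h6 := (Int.ModEq.refl ((lin (pws V b (1 :: P)) (Nat.shiftRight s 102) : ℕ) : ℤ)).add
      (h4.trans h5)
    refine h6.trans ?_
    rw [show (128 : ℤ) * (-1) * (H : ℤ) = -(128 * (H : ℤ)) by ring, ← sub_eq_add_neg]
  have hsq : Pt V b P Z y (Nat.land (Nat.mul l l) mask) 1638400 2 := by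
    refine ⟨fm (fL (1 :: P) (Nat.shiftRight s 102)) (fL (1 :: P) (Nat.shiftRight s 102)),
      (hq.mul hq).land hz, ?_⟩
    rw [evF_fm]
    exact mul_self_nonneg _
  exact ((((Pt.nat _).mul (G _)).mul hsq).land hz).eqd (by
    change 0 + _ + 2 = _
    rw [zero_add]
    rfl)

end

/-- **Soundness.** -/
theorem chk_sound (hV : Vars V P m dec) (hP : P.length ≤ 9) {gs : List Ex} {p : Ex}
    {M k1 s1 k2 s2 : ℕ} (h : chk V P m b gs p M k1 s1 k2 s2 = true) (hy : ∀ k, 0 ≤ y k)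
    (hg : ∀ g ∈ gs, 0 ≤ exVal y g) : 0 ≤ exVal y p := by
  have e : chk V P m b gs p M k1 s1 k2 s2 = Bool.rec (motive := fun _ => Bool) false
    (Bool.rec (motive := fun _ => Bool) false
      (chkV V P b (Nat.pow 2 (Nat.mul (Nat.succ b) m))
        (Nat.sub (Nat.pow 2 (Nat.mul (Nat.succ b) m)) 1) gs p M k1 s1 k2 s2)
      (chkN P b gs p M k1 s1 k2 s2)) (chkD V P gs p k1 s1 k2 s2) := rfl
  rw [e] at h
  cases hD : chkD V P gs p k1 s1 k2 s2 with
  | false => rw [hD] at h; exact absurd (h : false = true) Bool.false_ne_true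
  | true =>
  rw [hD] at h
  cases hN : chkN P b gs p M k1 s1 k2 s2 with
  | false => rw [hN] at h; exact absurd (h : false = true) Bool.false_ne_true
  | true =>
  rw [hN] at h
  replace h : chkV V P b (Nat.pow 2 (Nat.mul (Nat.succ b) m))
        (Nat.sub (Nat.pow 2 (Nat.mul (Nat.succ b) m)) 1) gs p M k1 s1 k2 s2 = true := h
  set Z := Nat.pow 2 (Nat.mul (Nat.succ b) m) with hZ
  set mask := Nat.sub Z 1 with hmask
  have hz : Zk Z mask := ⟨⟨(b + 1) * m, rfl⟩, rfl⟩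
  have G : Gs V b P Z y (nth (1 :: app (mapL (eE V b Z mask) gs) (pws V b P)))
      (nth (1 :: app (mapL nE gs) (ones P))) (nth (0 :: app (mapL (dE V) gs) (ones P))) :=
    Gs.cons (Gs.exs hV hz hg (Gs.vars hV hy P fun k hk => hk)) (Pt.nat 1)
  obtain ⟨f, hf, hf0⟩ := (Pt.sm 114 (Pt.t1 hz G) k1 s1).add (Pt.sm 182 (Pt.t2 hV hP hz G) k2 s2)
  have hp : Q (xv V b) P Z (fm [(1, ((Nat.succ M : ℕ) : ℤ))] (fE p))
      (Nat.mul (Nat.succ M) (eE V b Z mask p)) (Nat.mul (Nat.succ M) (nE p)) (Nat.add 0 (dE V p)) :=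
    (Q.nat (Nat.succ M)).mul (Q.ex hV hz p)
  have hq := hp.sub hz hf
  set q := fm [(1, ((Nat.succ M : ℕ) : ℤ))] (fE p) ++ FC.m1 (1, -1) f with hqd
  have hd : bmax (Nat.add 0 (dE V p)) (bmax (mx 114 (d1 (nth (0 :: app (mapL (dE V) gs) (ones P)))) k1 s1)
      (mx 182 (d2 (nth (0 :: app (mapL (dE V) gs) (ones P)))) k2 s2)) ≤ 3 := by
    have e0 : Nat.add 0 (dE V p) = dE V p := Nat.zero_add _
    rw [e0]
    exact Nat.le_of_ble_eq_true hD
  have hn := Nat.le_of_ble_eq_true hN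
  obtain ⟨h1, h2⟩ := hq.h hd
  have h3 := Nat.eq_of_beq_eq_true h
  have h4 : Nat.div (Nat.mul (Nat.pow 2 b) mask) (Nat.sub (Nat.pow 2 (Nat.succ b)) 1) =
      2 ^ b * FC.gs (2 ^ (b + 1)) m := hm_eq b m
  rw [h4] at h3
  have h5 : 0 ≤ evF y q := by
    refine key hV.tab (X := Nat.sub (Nat.add (Nat.mul (Nat.succ M) (eE V b Z mask p)) Z)
      (Nat.land (Nat.add (sm 114 (FC.t1 mask (nth (1 :: app (mapL (eE V b Z mask) gs) (pws V b P)))) k1 s1)
      (sm 182 (FC.t2 mask (Nat.land (Nat.mul (Nat.mul 128 mask) (sumL (pws V b (1 :: P)))) mask)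
        (pws V b (1 :: P)) (nth (1 :: app (mapL (eE V b Z mask) gs) (pws V b P)))) k2 s2)) mask))
      (b := b) (fun a ha => (h2 a ha).mono hd) (lt_of_le_of_lt hq.n (Nat.lt_of_succ_le hn)) ?_ h3 hy
    have e6 : ((2 ^ (b + 1)) ^ m : ℕ) = Z := by
      rw [← pow_mul]
      rfl
    rw [e6]
    exact h1
  rw [hqd, evF_append, evF_m1, evF_fm, evF_fE] at h5
  have h6 : evF y [(1, ((Nat.succ M : ℕ) : ℤ))] = (M : ℝ) + 1 := by
    simp [evF, cm_one]
  rw [h6] at h5
  simp only [cm_one] at h5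
  push_cast at h5
  have h7 : 0 ≤ ((M : ℝ) + 1) * exVal y p := by linarith
  have h8 : (0 : ℝ) < (M : ℝ) + 1 := by positivity
  exact (mul_nonneg_iff_of_pos_left h8).1 h7

theorem chkA_sound (hV : Vars V P m dec) (hP : P.length ≤ 9) {gs : List Ex} {p : Ex}
    {M k1 s1 k2 s2 : ℕ} (h : chkA V P m gs p M k1 s1 k2 s2 = true) (hy : ∀ k, 0 ≤ y k)
    (hg : ∀ g ∈ gs, 0 ≤ exVal y g) : 0 ≤ exVal y p :=
  chk_sound hV hP (b := Nat.succ (Nat.log2 (tn P gs p M k1 s1 k2 s2))) h hy hg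

end

end Pool.Agent.Helper47.FC
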