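import Pool.Agent.Helper83.Cert.Check

/-!
# Formal sums of monomial codes, packed numbers

A polynomial is a list of pairs (code of a monomial, integer). `cm x k` is the value of the monomial
`k` in a commutative ring. `key`: a polynomial whose packed value has only small digits has
nonnegative coefficients.
-/

set_option autoImplicit false

namespace Pool.Agent.Helper47.FC

open Pool.Agent.Helper83.Cert

abbrev F := List (ℕ × ℤ)

section

variable {R : Type*} [CommRing R]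

open Classical in
/-- the value of a monomial -/
noncomputable def cm (x : ℕ → R) (k : ℕ) : R :=
  if k = 0 then 0 else k.factorization.prod fun p e => x p ^ e

theorem cm_mul (x : ℕ → R) (a b : ℕ) : cm x (a * b) = cm x a * cm x b := by
  unfold cm
  rcases eq_or_ne a 0 with ha | ha
  · simp [ha]
  rcases eq_or_ne b 0 with hb | hb
  · simp [hb]
  rw [if_neg (mul_ne_zero ha hb), if_neg ha, if_neg hb, Nat.factorization_mul ha hb]
  exact Finsupp.prod_add_index' (fun p => pow_zero _) (fun p m n => pow_add _ _ _)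

theorem cm_one (x : ℕ → R) : cm x 1 = 1 := by
  simp [cm]

theorem cm_prime (x : ℕ → R) {p : ℕ} (hp : p.Prime) : cm x p = x p := by
  rw [cm, if_neg hp.ne_zero, hp.factorization]
  simp [Finsupp.prod_single_index]

/-- the value of a formal sum -/
noncomputable def evF (x : ℕ → R) : F → R
  | [] => 0
  | a :: p => (a.2 : R) * cm x a.1 + evF x p

theorem evF_append (x : ℕ → R) (p q : F) : evF x (p ++ q) = evF x p + evF x q := by
  induction p with
  | nil => simp [evF]
  | cons a p ih => rw [List.cons_append, evF, evF, ih]; ring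

end

theorem cm_evM (y : ℕ → ℝ) (k : ℕ) : cm y k = evM y k := rfl

/-- the product with one monomial -/
def m1 (a : ℕ × ℤ) (q : F) : F := q.map fun b => (a.1 * b.1, a.2 * b.2)

/-- the product -/
def fm : F → F → F
  | [], _ => []
  | a :: p, q => m1 a q ++ fm p q

/-- the norm -/
def nl : F → ℕ
  | [] => 0
  | a :: p => a.2.natAbs + nl p

/-- the code is a product of at most `d` elements of `L` -/
def Sp (L : List ℕ) (d k : ℕ) : Prop :=
  ∃ l : List ℕ, l.length ≤ d ∧ (∀ x ∈ l, x ∈ L) ∧ l.prod = k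

theorem Sp.mono {L : List ℕ} {d d' k : ℕ} (h : Sp L d k) (hd : d ≤ d') : Sp L d' k := by
  obtain ⟨l, h1, h2, h3⟩ := h
  exact ⟨l, h1.trans hd, h2, h3⟩

theorem Sp.mul {L : List ℕ} {d d' k k' : ℕ} (h : Sp L d k) (h' : Sp L d' k') :
    Sp L (d + d') (k * k') := by
  obtain ⟨l, h1, h2, h3⟩ := h
  obtain ⟨l', h1', h2', h3'⟩ := h'
  refine ⟨l ++ l', ?_, ?_, ?_⟩
  · rw [List.length_append]; omega
  · intro x hx
    rcases List.mem_append.1 hx with hx | hx
    · exact h2 x hx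
    · exact h2' x hx
  · rw [List.prod_append, h3, h3']

theorem Sp.one (L : List ℕ) : Sp L 0 1 := ⟨[], le_refl _, by simp, rfl⟩

theorem Sp.var {L : List ℕ} {k : ℕ} (h : k ∈ L) : Sp L 1 k :=
  ⟨[k], le_refl _, by simpa using h, by simp⟩

section

variable {R : Type*} [CommRing R]

theorem evF_m1 (x : ℕ → R) (a : ℕ × ℤ) (q : F) :
    evF x (m1 a q) = (a.2 : R) * cm x a.1 * evF x q := by
  induction q with
  | nil => simp [m1, evF]
  | cons b q ih =>
    have e : m1 a (b :: q) = (a.1 * b.1, a.2 * b.2) :: m1 a q := rfl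
    rw [e, evF, evF, ih, cm_mul]
    push_cast
    ring

theorem evF_fm (x : ℕ → R) (p q : F) : evF x (fm p q) = evF x p * evF x q := by
  induction p with
  | nil => simp [fm, evF]
  | cons a p ih => rw [fm, evF_append, evF_m1, ih, evF]; ring

end

theorem nl_append (p q : F) : nl (p ++ q) = nl p + nl q := by
  induction p with
  | nil => simp [nl]
  | cons a p ih => rw [List.cons_append, nl, nl, ih]; ring

theorem nl_m1 (a : ℕ × ℤ) (q : F) : nl (m1 a q) = a.2.natAbs * nl q := by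
  induction q with
  | nil => simp [m1, nl]
  | cons b q ih =>
    have e : m1 a (b :: q) = (a.1 * b.1, a.2 * b.2) :: m1 a q := rfl
    rw [e, nl, nl, ih, Int.natAbs_mul]
    ring

theorem nl_fm (p q : F) : nl (fm p q) = nl p * nl q := by
  induction p with
  | nil => simp [fm, nl]
  | cons a p ih => rw [fm, nl_append, nl_m1, ih, nl]; ring

theorem mem_fm {p q : F} {c : ℕ × ℤ} (h : c ∈ fm p q) : ∃ a ∈ p, ∃ b ∈ q, c.1 = a.1 * b.1 := by
  induction p with
  | nil => simp [fm] at h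
  | cons a p ih =>
    rw [fm] at h
    rcases List.mem_append.1 h with h | h
    · obtain ⟨b, hb, rfl⟩ := List.mem_map.1 h
      exact ⟨a, by simp, b, hb, rfl⟩
    · obtain ⟨a', ha', b, hb, e⟩ := ih h
      exact ⟨a', by simp [ha'], b, hb, e⟩

/-! ### Digits -/

theorem dig {β : ℕ} (hβ : 0 < β) : ∀ (m : ℕ) (e : ℕ → ℤ), (∀ i < m, |e i| < β) →
    ((β : ℤ) ^ m ∣ ∑ i ∈ Finset.range m, e i * (β : ℤ) ^ i) → ∀ i < m, e i = 0
  | 0, _, _, _ => fun i hi => absurd hi (Nat.not_lt_zero i)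
  | m + 1, e, h, hd => by
    have hs : ∑ i ∈ Finset.range (m + 1), e i * (β : ℤ) ^ i =
        (β : ℤ) * (∑ i ∈ Finset.range m, e (i + 1) * (β : ℤ) ^ i) + e 0 := by
      rw [Finset.sum_range_succ', Finset.mul_sum]
      congr 1
      · refine Finset.sum_congr rfl fun i _ => ?_
        rw [pow_succ]; ring
      · simp
    rw [hs] at hd
    have h0 : e 0 = 0 := by
      have h1 : (β : ℤ) ∣ (β : ℤ) * (∑ i ∈ Finset.range m, e (i + 1) * (β : ℤ) ^ i) + e 0 :=
        (Dvd.intro_left ((β : ℤ) ^ m) (pow_succ _ _).symm).trans hd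
      have h2 : (β : ℤ) ∣ e 0 := (Int.dvd_add_right (Dvd.intro _ rfl)).1 h1
      exact Int.eq_zero_of_abs_lt_dvd h2 (h 0 (Nat.succ_pos m))
    rw [h0, add_zero, pow_succ, mul_comm ((β : ℤ) ^ m)] at hd
    have hβ' : (β : ℤ) ≠ 0 := by exact_mod_cast hβ.ne'
    have h3 := (mul_dvd_mul_iff_left hβ').1 hd
    intro i hi
    rcases i with _ | i
    · exact h0
    · exact dig hβ m (fun i => e (i + 1)) (fun i hi => h (i + 1) (Nat.succ_lt_succ hi)) h3 i
        (Nat.lt_of_succ_lt_succ hi)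

theorem mod_sum (β X m : ℕ) :
    X % β ^ m = ∑ i ∈ Finset.range m, X / β ^ i % β * β ^ i := by
  induction m with
  | zero => simp [Nat.mod_one]
  | succ m ih => rw [Finset.sum_range_succ, ← ih, Nat.mod_pow_succ]; ring

/-- the geometric sum -/
def gs (β m : ℕ) : ℕ := ∑ i ∈ Finset.range m, β ^ i

theorem gs_succ' (β m : ℕ) : gs β (m + 1) = 1 + β * gs β m := by
  unfold gs
  rw [Finset.sum_range_succ', Finset.mul_sum, pow_zero, add_comm]
  congr 1
  exact Finset.sum_congr rfl fun i _ => by rw [pow_succ]; ring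

theorem gs_add (β i k : ℕ) : gs β (i + k) = gs β i + β ^ i * gs β k := by
  unfold gs
  rw [Finset.sum_range_add, Finset.mul_sum]
  congr 1
  exact Finset.sum_congr rfl fun j _ => by rw [pow_add]

theorem gs_mul (β m : ℕ) : (β + 1 - 1) * gs (β + 1) m + 1 = (β + 1) ^ m := by
  induction m with
  | zero => simp [gs]
  | succ m ih =>
    have e : gs (β + 1) (m + 1) = gs (β + 1) m + (β + 1) ^ m := by
      unfold gs; rw [Finset.sum_range_succ]
    rw [Nat.add_sub_cancel] at *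
    rw [e, pow_succ]
    nlinarith [ih]

theorem gs_lt {β : ℕ} (hβ : 2 ≤ β) (m : ℕ) : gs β m < β ^ m := by
  obtain ⟨c, rfl⟩ : ∃ c, β = c + 1 := ⟨β - 1, by omega⟩
  have h := gs_mul c m
  rw [Nat.add_sub_cancel] at h
  have : gs (c + 1) m ≤ c * gs (c + 1) m := Nat.le_mul_of_pos_left _ (by omega)
  omega

theorem gs_div {β : ℕ} (hβ : 2 ≤ β) {i m : ℕ} (hi : i < m) :
    ∃ c, gs β m / β ^ i = 1 + β * c := by
  obtain ⟨k, rfl⟩ : ∃ k, m = i + (k + 1) := ⟨m - i - 1, by omega⟩
  refine ⟨gs β k, ?_⟩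
  rw [gs_add, gs_succ', Nat.add_mul_div_left _ _ (by positivity), Nat.div_eq_of_lt (gs_lt hβ i),
    zero_add]

/-- the mask of the leading bits of the digits -/
theorem hm_eq (b m : ℕ) :
    2 ^ b * (2 ^ ((b + 1) * m) - 1) / (2 ^ (b + 1) - 1) = 2 ^ b * gs (2 ^ (b + 1)) m := by
  have h2 : 0 < 2 ^ (b + 1) - 1 := by
    have : 2 ≤ 2 ^ (b + 1) := by
      calc 2 = 2 ^ 1 := rfl
        _ ≤ 2 ^ (b + 1) := Nat.pow_le_pow_right (by norm_num) (by omega)
    omega
  obtain ⟨c, hc⟩ : ∃ c, 2 ^ (b + 1) = c + 1 := ⟨2 ^ (b + 1) - 1, by omega⟩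
  have h := gs_mul c m
  rw [Nat.add_sub_cancel, ← hc] at h
  have e : 2 ^ ((b + 1) * m) - 1 = (2 ^ (b + 1) - 1) * gs (2 ^ (b + 1)) m := by
    rw [pow_mul, ← h]
    rw [hc]
    simp
  rw [e, show 2 ^ b * ((2 ^ (b + 1) - 1) * gs (2 ^ (b + 1)) m) =
    (2 ^ (b + 1) - 1) * (2 ^ b * gs (2 ^ (b + 1)) m) by ring]
  exact Nat.mul_div_cancel_left _ h2

theorem dig_lt {b m X : ℕ} (h : Nat.land X (2 ^ b * gs (2 ^ (b + 1)) m) = 0) {i : ℕ} (hi : i < m) :
    X / (2 ^ (b + 1)) ^ i % 2 ^ (b + 1) < 2 ^ b := by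
  by_contra hc
  have hc := not_lt.1 hc
  set t := X / (2 ^ (b + 1)) ^ i % 2 ^ (b + 1) with ht
  have hlt : t < 2 ^ (b + 1) := Nat.mod_lt _ (by positivity)
  have h1 : t / 2 ^ b = 1 := by
    refine Nat.div_eq_of_lt_le (by omega) ?_
    rw [pow_succ] at hlt
    omega
  have h2 : t.testBit b = true := by
    rw [Nat.testBit_eq_decide_div_mod_eq, h1]
    rfl
  have h3 : X.testBit ((b + 1) * i + b) = true := by
    rw [ht, Nat.testBit_mod_two_pow, ← pow_mul, Nat.testBit_div_two_pow] at h2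
    simp only [Bool.and_eq_true, decide_eq_true_eq] at h2
    rw [add_comm]
    exact h2.2
  have h4 : (2 ^ b * gs (2 ^ (b + 1)) m).testBit ((b + 1) * i + b) = true := by
    obtain ⟨c, hc⟩ := gs_div (β := 2 ^ (b + 1)) (by
      calc 2 = 2 ^ 1 := rfl
        _ ≤ 2 ^ (b + 1) := Nat.pow_le_pow_right (by norm_num) (by omega)) hi
    have e : 2 ^ b * gs (2 ^ (b + 1)) m / 2 ^ ((b + 1) * i + b) = gs (2 ^ (b + 1)) m / (2 ^ (b + 1)) ^ i := by
      rw [pow_add 2 ((b + 1) * i) b, mul_comm (2 ^ ((b + 1) * i)),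
        Nat.mul_div_mul_left _ _ (by positivity), pow_mul]
    rw [Nat.testBit_eq_decide_div_mod_eq, e, hc, pow_succ, mul_right_comm, mul_comm (2 ^ b * c) 2]
    simp only [decide_eq_true_eq]
    omega
  have h5 : (Nat.land X (2 ^ b * gs (2 ^ (b + 1)) m)).testBit ((b + 1) * i + b) = true := by
    have := Nat.testBit_and X (2 ^ b * gs (2 ^ (b + 1)) m) ((b + 1) * i + b)
    rw [h3, h4] at this
    exact this
  rw [h] at h5
  simp at h5

/-! ### The key lemma -/

/-- the weights are good: `w` on the products of at most three elements of `L` is injective -/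
structure Tab (L : List ℕ) (w : ℕ → ℕ) (m : ℕ) (dec : ℕ → ℕ) : Prop where
  pr : ∀ p ∈ L, p.Prime
  z : w 1 = 0
  t : ∀ p ∈ 1 :: L, ∀ q ∈ 1 :: L, ∀ r ∈ 1 :: L, w p + (w q + w r) < m ∧
    dec (w p + (w q + w r)) = p * q * r

section

variable {L : List ℕ} {w : ℕ → ℕ} {m : ℕ} {dec : ℕ → ℕ} {β : ℕ}

theorem Tab.sp (T : Tab L w m dec) {k : ℕ} (h : Sp L 3 k) :
    ∃ i < m, cm (fun p => (β : ℤ) ^ w p) k = (β : ℤ) ^ i ∧ dec i = k := by
  obtain ⟨l, h1, h2, h3⟩ := h
  match l, h1, h2, h3 with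
  | [], _, _, h3 =>
    have h := T.t 1 (by simp) 1 (by simp) 1 (by simp)
    rw [T.z] at h
    have h3 : 1 = k := by simpa using h3
    subst h3
    exact ⟨_, h.1, by rw [cm_one]; simp, by simpa using h.2⟩
  | [p], _, h2, h3 =>
    have hp : p ∈ L := h2 p (by simp)
    have h := T.t p (by simp [hp]) 1 (by simp) 1 (by simp)
    rw [T.z] at h
    have h3 : p = k := by simpa using h3
    subst h3
    exact ⟨_, h.1, by rw [cm_prime _ (T.pr p hp)]; simp, by simpa using h.2⟩
  | [p, q], _, h2, h3 =>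
    have hp : p ∈ L := h2 p (by simp)
    have hq : q ∈ L := h2 q (by simp)
    have h := T.t p (by simp [hp]) q (by simp [hq]) 1 (by simp)
    rw [T.z] at h
    have h3 : p * q = k := by simpa using h3
    subst h3
    exact ⟨_, h.1, by rw [cm_mul, cm_prime _ (T.pr p hp), cm_prime _ (T.pr q hq), ← pow_add]; simp,
      by simpa using h.2⟩
  | [p, q, r], _, h2, h3 =>
    have hp : p ∈ L := h2 p (by simp)
    have hq : q ∈ L := h2 q (by simp)
    have hr : r ∈ L := h2 r (by simp)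
    have h := T.t p (by simp [hp]) q (by simp [hq]) r (by simp [hr])
    have h3 : p * (q * r) = k := by simpa using h3
    subst h3
    refine ⟨_, h.1, ?_, by rw [h.2]; ring⟩
    rw [cm_mul, cm_mul, cm_prime _ (T.pr p hp), cm_prime _ (T.pr q hq), cm_prime _ (T.pr r hr),
      pow_add, pow_add]
  | _ :: _ :: _ :: _ :: _, h1, _, _ =>
    exact absurd h1 (by simp)

open Classical in
/-- the coefficient at the weight `i` -/
noncomputable def rr (W : ℕ → ℕ) : F → ℕ → ℤ
  | [], _ => 0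
  | a :: f, i => (if W a.1 = i then a.2 else 0) + rr W f i

theorem rr_abs (W : ℕ → ℕ) (f : F) (i : ℕ) : |rr W f i| ≤ nl f := by
  induction f with
  | nil => simp [rr, nl]
  | cons a f ih =>
    rw [rr, nl]
    push_cast
    refine (abs_add_le _ _).trans (add_le_add ?_ ih)
    split_ifs
    · rfl
    · simp

theorem rr_sum {R : Type*} [CommRing R] (W : ℕ → ℕ) (m : ℕ) (c : ℕ → R) (g : ℕ → R) (f : F)
    (h : ∀ a ∈ f, W a.1 < m ∧ c (W a.1) = g a.1) :
    (f.map fun a => (a.2 : R) * g a.1).sum = ∑ i ∈ Finset.range m, (rr W f i : R) * c i := by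
  induction f with
  | nil => simp [rr]
  | cons a f ih =>
    rw [List.map_cons, List.sum_cons, ih fun b hb => h b (by simp [hb])]
    have e : ∀ i, ((rr W (a :: f) i : ℤ) : R) * c i =
        (if W a.1 = i then (a.2 : R) * c i else 0) + (rr W f i : R) * c i := by
      intro i
      rw [rr]
      split_ifs <;> push_cast <;> ring
    simp only [e]
    rw [Finset.sum_add_distrib, Finset.sum_ite_eq, if_pos (Finset.mem_range.2 (h a (by simp)).1),
      (h a (by simp)).2]

theorem evF_sum {R : Type*} [CommRing R] (x : ℕ → R) (f : F) :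
    evF x f = (f.map fun a => (a.2 : R) * cm x a.1).sum := by
  induction f with
  | nil => rfl
  | cons a f ih => rw [evF, ih, List.map_cons, List.sum_cons]

/-- **Small digits, nonnegative coefficients.** -/
theorem key (T : Tab L w m dec) {f : F} {X b : ℕ} (hs : ∀ a ∈ f, Sp L 3 a.1) (hn : nl f < 2 ^ b)
    (hX : (X : ℤ) ≡ evF (fun p => ((2 ^ (b + 1) : ℕ) : ℤ) ^ w p) f [ZMOD ((2 ^ (b + 1)) ^ m : ℕ)])
    (hH : Nat.land X (2 ^ b * gs (2 ^ (b + 1)) m) = 0) {y : ℕ → ℝ} (hy : ∀ k, 0 ≤ y k) :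
    0 ≤ evF y f := by
  classical
  set β : ℕ := 2 ^ (b + 1) with hβ
  have hβ0 : 0 < β := by positivity
  have tk : ∀ k, ∃ i, Sp L 3 k → i < m ∧ cm (fun p => (β : ℤ) ^ w p) k = (β : ℤ) ^ i ∧ dec i = k := by
    intro k
    by_cases h : Sp L 3 k
    · obtain ⟨i, h1, h2⟩ := T.sp (β := β) h
      exact ⟨i, fun _ => ⟨h1, h2⟩⟩
    · exact ⟨0, fun h' => absurd h' h⟩
  choose W hW using tk
  have e1 : evF (fun p => (β : ℤ) ^ w p) f = ∑ i ∈ Finset.range m, rr W f i * (β : ℤ) ^ i := by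
    rw [evF_sum]
    have := rr_sum (R := ℤ) W m (fun i => (β : ℤ) ^ i) (fun k => cm (fun p => (β : ℤ) ^ w p) k) f
      (fun a ha => ⟨(hW a.1 (hs a ha)).1, ((hW a.1 (hs a ha)).2.1).symm⟩)
    simpa using this
  have e2 : evF y f = ∑ i ∈ Finset.range m, (rr W f i : ℝ) * cm y (dec i) := by
    rw [evF_sum]
    exact rr_sum (R := ℝ) W m (fun i => cm y (dec i)) (fun k => cm y k) f
      (fun a ha => ⟨(hW a.1 (hs a ha)).1, by rw [(hW a.1 (hs a ha)).2.2]⟩)
  have d0 : ∀ i < m, rr W f i = ((X / β ^ i % β : ℕ) : ℤ) := by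
    intro i hi
    have hz := dig hβ0 m (fun i => rr W f i - ((X / β ^ i % β : ℕ) : ℤ)) (fun i hi => by
      have h1 := rr_abs W f i
      have h2 := dig_lt hH hi
      have h3 : (2 : ℕ) ^ b ≤ β := by
        rw [hβ]
        exact Nat.pow_le_pow_right (by norm_num) (by omega)
      have h4 : |rr W f i| < ((2 ^ b : ℕ) : ℤ) := lt_of_le_of_lt h1 (by exact_mod_cast hn)
      have h5 : ((X / β ^ i % β : ℕ) : ℤ) < ((2 ^ b : ℕ) : ℤ) := by exact_mod_cast h2
      have h6 : (0 : ℤ) ≤ ((X / β ^ i % β : ℕ) : ℤ) := Int.natCast_nonneg _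
      have h7 : ((2 ^ b : ℕ) : ℤ) + ((2 ^ b : ℕ) : ℤ) = (β : ℤ) := by
        rw [hβ, pow_succ]
        push_cast
        ring
      rw [abs_lt] at h4 ⊢
      constructor <;> linarith [h4.1, h4.2]) (by
      have h1 : ∑ i ∈ Finset.range m, (rr W f i - ((X / β ^ i % β : ℕ) : ℤ)) * (β : ℤ) ^ i =
          evF (fun p => (β : ℤ) ^ w p) f - ((X % β ^ m : ℕ) : ℤ) := by
        rw [e1, mod_sum, Nat.cast_sum, ← Finset.sum_sub_distrib]
        refine Finset.sum_congr rfl fun i _ => ?_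
        push_cast
        ring
      rw [h1]
      have h2 : ((X % β ^ m : ℕ) : ℤ) ≡ (X : ℤ) [ZMOD ((β ^ m : ℕ) : ℤ)] := by
        rw [Int.natCast_mod]
        exact Int.mod_modEq _ _
      have h3 := (h2.trans hX).dvd
      exact_mod_cast h3) i hi
    have hz' : rr W f i - ((X / β ^ i % β : ℕ) : ℤ) = 0 := hz
    linarith
  rw [e2]
  refine Finset.sum_nonneg fun i hi => ?_
  rw [d0 i (Finset.mem_range.1 hi), cm_evM]
  exact mul_nonneg (by exact_mod_cast Nat.zero_le _) (evM_nonneg hy _)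

end

end Pool.Agent.Helper47.FC
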